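import Pool.Agent.V5helper60.PP.Par
import Pool.Agent.V5helper60.HW.Same

/-!
# Where the p-parity conjecture for semistable curves can fail for the first time

Let `E` be a semistable elliptic curve over a number field `K` and `p` a prime number. For a finite
extension `F` of `K` the root number is `w(E/F) = (-1) ^ (number of infinite places of F + number of
places of F with split multiplicative reduction)`. Suppose that the `p`-parity conjecture fails for `E`
over a finite extension `F₀` of `K`. Then there is an algebraic extension `M` of `F₀` which is CRITICAL: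
the `p`-parity conjecture fails for `E` over arbitrarily large finite extensions inside `M`, and for
every field `N` larger than `M` it holds over all sufficiently large finite extensions inside `N`. Every
such field is very special:

* all finite Galois extensions of `M` have `2`-hyperelementary groups (a cyclic normal subgroup of odd
  order, and the quotient is a `2`-group);
* for every `n` and all large finite `F` inside `M` the group `Gal(F(E[n]) / F)` is `2`-hyperelementary;
  if `n` is odd then `Gal(F(E[n ^ j]) / F(E[n]))` is cyclic, for every `j`;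
* for every prime number `q` and all large finite `F` inside `M`, `E` has an `F`-rational subgroup of
  order `q`, or the automorphisms over an extension of `F` of degree at most two act on `E[q]` through a
  commutative group.

The finite form: for a finite Galois extension `L` of `F` the conjecture for `E` over `F` follows from
the conjecture over the fields between `F` and `L` over which `L` has a `2`-hyperelementary group.

The proof. Corestriction on the cocycles with local conditions gives Galois descent for the vector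
spaces `ℚ_p ⊗ Hom (Sel, ℚ_p / ℤ_p)`: the space of `L ^ H` is the space of the `H`-invariants of a
representation of `Gal(L/F)`. So a relation `∑ n_H Ind_H 1 = m` (Solomon, Dress) with odd `m` gives
`m rk_p(E/F) = ∑ n_H rk_p(E/L ^ H)`. The number of the infinite places and the number of the places of
split multiplicative reduction of `L ^ H` are mean values over `H` of functions on `Gal(L/F)` (Frobenius
elements act on the two tangents at the node), and satisfy the same relation. So the parity of
`rk_p + #(infinite places) + #(split places)` over `F` is determined by the parities over the fields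
`L ^ H` with `n_H ≠ 0`. The critical fields come from Zorn's lemma.
-/

set_option autoImplicit false

namespace Pool.Agent.Results.MP_ddf76b_nt.CriticalFields

open NumberField IsDedekindDomain TensorProduct

open scoped Classical

section
variable {K : Type} [Field K]

/-- The group of the points of `E` over the algebraic closure of `K`. -/
def Points (E : WeierstrassCurve K) : Type :=
  (E.baseChange (AlgebraicClosure K)).toAffine.Point

noncomputable instance addPoints (E : WeierstrassCurve K) : AddCommGroup (Points E) :=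
  (inferInstance : AddCommGroup (E.baseChange (AlgebraicClosure K)).toAffine.Point)

/-- The action of an automorphism of the algebraic closure on the points. -/
noncomputable def act (E : WeierstrassCurve K) (σ : AlgebraicClosure K ≃ₐ[K] AlgebraicClosure K) :
    Points E →+ Points E :=
  WeierstrassCurve.Affine.Point.map (W' := E.toAffine)
    (σ : AlgebraicClosure K →ₐ[K] AlgebraicClosure K)

/-- `P` is a torsion point whose order is a power of `p`. -/
def IsPowerTorsion (E : WeierstrassCurve K) (p : ℕ) (P : Points E) : Prop := ∃ n : ℕ, p ^ n • P = 0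

/-- `c` is a continuous (that is, locally constant) cocycle of the absolute Galois group of `F` with
values in `E[p^∞]`, whose class is locally trivial in the groups `H¹(F_w, E)` for all places `w`: for
every nontrivial absolute value `w` of the algebraic closure there is a point `P` such that
`c σ = σ P - P` for all `σ` over `F` preserving `w`. -/
structure IsSelmerCocycle (E : WeierstrassCurve K) (p : ℕ)
    (F : IntermediateField K (AlgebraicClosure K)) (c : F.fixingSubgroup → Points E) : Prop where
  cocycle : ∀ σ τ, c (σ * τ) = c σ + act E σ (c τ)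
  continuous : ∃ L : IntermediateField K (AlgebraicClosure K), FiniteDimensional K L ∧
    ∀ σ : F.fixingSubgroup,
      (σ : AlgebraicClosure K ≃ₐ[K] AlgebraicClosure K) ∈ L.fixingSubgroup → c σ = 0
  torsion : ∀ σ, IsPowerTorsion E p (c σ)
  locallyTrivial : ∀ w : AbsoluteValue (AlgebraicClosure K) ℝ, w.IsNontrivial →
    ∃ P : Points E, ∀ σ : F.fixingSubgroup,
      (∀ x, w ((σ : AlgebraicClosure K ≃ₐ[K] AlgebraicClosure K) x) = w x) →
        c σ = act E σ P - P

/-- `c` is the coboundary of a point in `E[p^∞]`. -/
def IsCoboundary (E : WeierstrassCurve K) (p : ℕ)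
    (F : IntermediateField K (AlgebraicClosure K)) (c : F.fixingSubgroup → Points E) : Prop :=
  ∃ P : Points E, IsPowerTorsion E p P ∧ ∀ σ : F.fixingSubgroup, c σ = act E σ P - P

end

section sel
variable {K : Type} [Field K] [NumberField K] (E : WeierstrassCurve K) (p : ℕ)
  (F : IntermediateField K (AlgebraicClosure K))

/-- The functions on the absolute Galois group of `F` with values in the group of the points. -/
def Cochains : Type := F.fixingSubgroup → Points E

noncomputable instance addCochains : AddCommGroup (Cochains E F) :=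
  (inferInstance : AddCommGroup (F.fixingSubgroup → Points E))

/-- The group of the Selmer cocycles (the sum of two of them is one). -/
noncomputable def selmerCocycles : AddSubgroup (Cochains E F) := AddSubgroup.closure {c | IsSelmerCocycle E p F c}

/-- The group of the coboundaries (the sum of two of them is one). -/
noncomputable def coboundaries : AddSubgroup (Cochains E F) := AddSubgroup.closure {c | IsCoboundary E p F c}

/-- The `p^∞`-Selmer group of `E` over `F`. -/
def Selmer : Type :=
  selmerCocycles E p F ⧸ (coboundaries E p F).addSubgroupOf (selmerCocycles E p F)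

noncomputable instance addSelmer : AddCommGroup (Selmer E p F) :=
  (inferInstance : AddCommGroup
    (selmerCocycles E p F ⧸ (coboundaries E p F).addSubgroupOf (selmerCocycles E p F)))

/-- The group `ℚ_p / ℤ_p`. -/
def QpModZp [Fact p.Prime] : Type := ℚ_[p] ⧸ LinearMap.range (Algebra.linearMap ℤ_[p] ℚ_[p])

noncomputable instance instQpModZp [Fact p.Prime] : AddCommGroup (QpModZp p) :=
  (inferInstance : AddCommGroup (ℚ_[p] ⧸ LinearMap.range (Algebra.linearMap ℤ_[p] ℚ_[p])))

noncomputable instance modQpModZp [Fact p.Prime] : Module ℤ_[p] (QpModZp p) :=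
  (inferInstance : Module ℤ_[p] (ℚ_[p] ⧸ LinearMap.range (Algebra.linearMap ℤ_[p] ℚ_[p])))

/-- The Pontryagin dual `Hom (Sel, ℚ_p / ℤ_p)` of the Selmer group. -/
def SelmerDual [Fact p.Prime] : Type := Selmer E p F →+ QpModZp p

noncomputable instance instSelmerDual [Fact p.Prime] : AddCommGroup (SelmerDual E p F) :=
  (inferInstance : AddCommGroup (Selmer E p F →+ QpModZp p))

noncomputable instance modSelmerDual [Fact p.Prime] : Module ℤ_[p] (SelmerDual E p F) :=
  (inferInstance : Module ℤ_[p] (Selmer E p F →+ QpModZp p))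

/-- `r = rk_p(E/F)` is the `p^∞`-Selmer rank: the dimension of the tensor product of `ℚ_p` with the
Pontryagin dual of the Selmer group. -/
def SelmerRank [Fact p.Prime] (r : ℕ) : Prop :=
  Module.rank ℚ_[p] (ℚ_[p] ⊗[ℤ_[p]] SelmerDual E p F) = r

end sel

section parity
variable {K : Type} [Field K] [NumberField K]

/-- `W v` is, for every finite place `v` of `K`, an integral model of `E` whose reduction modulo `v` is
good (discriminant prime to `v`) or multiplicative (`c₄` prime to `v`). -/
def SemistableModels (E : WeierstrassCurve K) (W : HeightOneSpectrum (𝓞 K) → WeierstrassCurve (𝓞 K)) :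
    Prop :=
  ∀ v : HeightOneSpectrum (𝓞 K),
    (∃ C : WeierstrassCurve.VariableChange K, C • (W v).map (algebraMap (𝓞 K) K) = E) ∧
    ((W v).Δ ∉ v.asIdeal ∨ (W v).c₄ ∉ v.asIdeal)

/-- The cubic curve `C` over a field has a singular point `(x, y)` with two different tangents, and the
slope `t` of one of them is in the field. -/
def SplitNode {k : Type} [CommRing k] (C : WeierstrassCurve k) : Prop :=
  ∃ x y t : k, C.toAffine.Equation x y ∧ ¬ C.toAffine.Nonsingular x y ∧
    t ^ 2 + C.a₁ * t = C.a₂ + 3 * x ∧ 2 * t + C.a₁ ≠ 0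

/-- `E` has split multiplicative reduction at the finite place `w` of `F`: the reduction modulo `w` of
the model `W v`, where `v` is the place of `K` below `w`, has a split node. -/
def SplitAt (W : HeightOneSpectrum (𝓞 K) → WeierstrassCurve (𝓞 K)) {F : Type} [Field F] [Algebra K F]
    (w : HeightOneSpectrum (𝓞 F)) : Prop :=
  ∃ v : HeightOneSpectrum (𝓞 K), v.asIdeal = w.asIdeal.comap (algebraMap (𝓞 K) (𝓞 F)) ∧
    SplitNode (((W v).map (algebraMap (𝓞 K) (𝓞 F))).map (Ideal.Quotient.mk w.asIdeal))

/-- The global root number of the semistable curve `E` over `F`: a factor `-1` for every infinite place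
of `F` and for every place of `F` with split multiplicative reduction. -/
noncomputable def rootNumber (W : HeightOneSpectrum (𝓞 K) → WeierstrassCurve (𝓞 K))
    (F : IntermediateField K (AlgebraicClosure K)) : ℤ :=
  (-1) ^ (Nat.card (InfinitePlace F) + Nat.card {w : HeightOneSpectrum (𝓞 F) // SplitAt W w})

/-- The `p`-parity conjecture for the semistable curve `E` over `F`. -/
def PParity (E : WeierstrassCurve K) (W : HeightOneSpectrum (𝓞 K) → WeierstrassCurve (𝓞 K)) (p : ℕ)
    [Fact p.Prime] (F : IntermediateField K (AlgebraicClosure K)) : Prop :=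
  ∃ r : ℕ, SelmerRank E p F r ∧ (-1) ^ r = rootNumber W F

end parity

section
variable {K Ω : Type} [Field K] [Field Ω] [Algebra K Ω]

/-- `P F` holds for all sufficiently large finite extensions `F` of `K` inside `M`. -/
def ForLarge (M : IntermediateField K Ω) (P : IntermediateField K Ω → Prop) : Prop :=
  ∃ F₁ : IntermediateField K Ω, F₁ ≤ M ∧ FiniteDimensional K F₁ ∧
    ∀ F, F₁ ≤ F → F ≤ M → FiniteDimensional K F → P F

/-- The extension `M` of `K` is critical for the property `Q` of the finite extensions of `K`: there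
are arbitrarily large finite extensions inside `M` without the property `Q`, and for every larger field
`N` all sufficiently large finite extensions inside `N` have the property `Q`. -/
def Critical (Q : IntermediateField K Ω → Prop) (M : IntermediateField K Ω) : Prop :=
  ¬ ForLarge M Q ∧ ∀ N, M < N → ForLarge N Q

end

/-- `G` has a normal cyclic subgroup (generated by `c`) of order prime to `l`, and every element of
the quotient has `l`-power order. -/
def Hyperelementary (l : ℕ) (G : Type) [Group G] : Prop :=
  ∃ c : G, (orderOf c).Coprime l ∧ (∀ g : G, g * c * g⁻¹ ∈ Subgroup.zpowers c) ∧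
    ∀ g : G, ∃ k : ℕ, g ^ l ^ k ∈ Subgroup.zpowers c

section
variable {K : Type} [Field K]

/-- `σ` and `τ` act in the same way on the group `E[n]` of the points whose order divides `n`. -/
def SameOn (E : WeierstrassCurve K) (n : ℕ)
    (σ τ : AlgebraicClosure K ≃ₐ[K] AlgebraicClosure K) : Prop :=
  ∀ P : Points E, n • P = 0 → act E σ P = act E τ P

/-- All finite Galois extensions of `M` have `l`-hyperelementary groups. -/
def HyperelementaryExtensions (l : ℕ) (M : IntermediateField K (AlgebraicClosure K)) : Prop :=
  ∀ (N : IntermediateField M (AlgebraicClosure K)) [FiniteDimensional M N] [IsGalois M N],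
    Hyperelementary l (N ≃ₐ[M] N)

/-- The automorphisms over `F` induce an `l`-hyperelementary group on `E[n]`: there is a `c` over `F`
such that the order of the action of `c` on `E[n]` is prime to `l`, all conjugates of `c` act as powers of
`c`, and for every `g` over `F` there is a `k` such that `g ^ (l ^ k)` acts as a power of `c`. -/
def HyperelementaryOn (E : WeierstrassCurve K) (l n : ℕ)
    (F : IntermediateField K (AlgebraicClosure K)) : Prop :=
  ∃ c ∈ F.fixingSubgroup, (∃ t : ℕ, t.Coprime l ∧ SameOn E n (c ^ t) 1) ∧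
    (∀ g ∈ F.fixingSubgroup, ∃ i : ℤ, SameOn E n (g * c * g⁻¹) (c ^ i)) ∧
    ∀ g ∈ F.fixingSubgroup, ∃ (k : ℕ) (i : ℤ), SameOn E n (g ^ l ^ k) (c ^ i)

/-- The automorphisms over `F` which are trivial on `E[n]` induce a cyclic group on `E[n ^ j]`. -/
def CyclicOn (E : WeierstrassCurve K) (n j : ℕ) (F : IntermediateField K (AlgebraicClosure K)) :
    Prop :=
  ∃ c ∈ F.fixingSubgroup, SameOn E n c 1 ∧
    ∀ g ∈ F.fixingSubgroup, SameOn E n g 1 → ∃ i : ℤ, SameOn E (n ^ j) g (c ^ i)

/-- `E` has a subgroup of order `q` which is defined over `F`. -/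
def HasRationalSubgroup (E : WeierstrassCurve K) (q : ℕ)
    (F : IntermediateField K (AlgebraicClosure K)) : Prop :=
  ∃ C : AddSubgroup (Points E), Nat.card C = q ∧
    ∀ σ ∈ F.fixingSubgroup, ∀ P ∈ C, act E σ P ∈ C

/-- Over a finite extension `F'` of `F` of degree at most two the automorphisms act on `E[q]` through a
commutative group. -/
def AbelianInDegreeTwo (E : WeierstrassCurve K) (q : ℕ)
    (F : IntermediateField K (AlgebraicClosure K)) : Prop :=
  ∃ F' : IntermediateField K (AlgebraicClosure K), F ≤ F' ∧ FiniteDimensional K F' ∧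
    Module.finrank K F' ≤ 2 * Module.finrank K F ∧
    ∀ σ ∈ F'.fixingSubgroup, ∀ τ ∈ F'.fixingSubgroup, SameOn E q (σ * τ) (τ * σ)

/-- `E` has a subgroup of order `q` defined over `F`, or the automorphisms over an extension of `F` of
degree at most two act on `E[q]` through a commutative group. -/
def ReducibleOrDihedral (E : WeierstrassCurve K) (q : ℕ)
    (F : IntermediateField K (AlgebraicClosure K)) : Prop :=
  HasRationalSubgroup E q F ∨ AbelianInDegreeTwo E q F

end

section bridge

open Pool.Agent.V5helper60.PP Pool.Agent.V5helper60.HW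

theorem cocycle_iff {K : Type} [Field K] [NumberField K] (E : WeierstrassCurve K) (p : ℕ)
    (F : IntermediateField K (AlgebraicClosure K)) (c : F.fixingSubgroup → Points E) :
    IsSelmerCocycle E p F c ↔ c ∈ Z (dat E p) F.fixingSubgroup := by
  constructor
  · rintro ⟨h1, ⟨L, h2, h3⟩, h4, h5⟩
    refine ⟨⟨h1, ⟨_, ⟨L, h2, rfl⟩, h3⟩, h4⟩, ?_⟩
    rintro _ ⟨w, hw, rfl⟩
    exact h5 w hw
  · rintro ⟨⟨h1, ⟨_, ⟨L, h2, rfl⟩, h3⟩, h4⟩, h5⟩
    exact ⟨h1, ⟨L, h2, h3⟩, h4, fun w hw => h5 _ ⟨w, hw, rfl⟩⟩

theorem coboundary_iff {K : Type} [Field K] [NumberField K] (E : WeierstrassCurve K) (p : ℕ)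
    (F : IntermediateField K (AlgebraicClosure K)) (c : F.fixingSubgroup → Points E) :
    IsCoboundary E p F c ↔ c ∈ B (dat E p) F.fixingSubgroup := by
  constructor
  · rintro ⟨P, h1, h2⟩
    exact ⟨P, h1, funext h2⟩
  · rintro ⟨P, h1, h2⟩
    exact ⟨P, h1, fun σ => congrFun h2 σ⟩


theorem rank_congr {G : Type} [AddCommGroup G] {Z₁ Z₂ B₁ B₂ : AddSubgroup G} (hZ : Z₁ = Z₂)
    (hB : B₁ = B₂) (p : ℕ) [Fact p.Prime] :
    Module.rank ℚ_[p] (ℚ_[p] ⊗[ℤ_[p]] ((Z₁ ⧸ B₁.addSubgroupOf Z₁) →+ QZ p)) =
    Module.rank ℚ_[p] (ℚ_[p] ⊗[ℤ_[p]] ((Z₂ ⧸ B₂.addSubgroupOf Z₂) →+ QZ p)) := by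
  subst hZ
  subst hB
  rfl

theorem selmerRank_iff {K : Type} [Field K] [NumberField K] (E : WeierstrassCurve K) (p : ℕ)
    [Fact p.Prime] (F : IntermediateField K (AlgebraicClosure K)) (r : ℕ) :
    SelmerRank E p F r ↔ RankIs E p F r := by
  have h1 : selmerCocycles E p F = Z (dat E p) F.fixingSubgroup := by
    have e : {c : F.fixingSubgroup → Points E | IsSelmerCocycle E p F c} =
      ((Z (dat E p) F.fixingSubgroup : AddSubgroup (F.fixingSubgroup → Pts E (AlgebraicClosure K))) :
        Set (F.fixingSubgroup → Pts E (AlgebraicClosure K))) := Set.ext fun c => cocycle_iff E p F c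
    exact (congrArg AddSubgroup.closure e).trans (AddSubgroup.closure_eq _)
  have h2 : coboundaries E p F = B (dat E p) F.fixingSubgroup := by
    have e : {c : F.fixingSubgroup → Points E | IsCoboundary E p F c} =
      ((B (dat E p) F.fixingSubgroup : AddSubgroup (F.fixingSubgroup → Pts E (AlgebraicClosure K))) :
        Set (F.fixingSubgroup → Pts E (AlgebraicClosure K))) :=
      Set.ext fun c => coboundary_iff E p F c
    exact (congrArg AddSubgroup.closure e).trans (AddSubgroup.closure_eq _)
  have h3 := rank_congr h1 h2 p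
  unfold SelmerRank RankIs
  exact Eq.congr_left h3

theorem splitNode_iff {R : Type} [CommRing R] (C : WeierstrassCurve R) (I : Ideal R) :
    SplitNode (C.map (Ideal.Quotient.mk I)) ↔ ∃ t x y : R, IsNode C I x y t := by
  have hz : ∀ r : R, Ideal.Quotient.mk I r = 0 ↔ r ∈ I := fun r => Ideal.Quotient.eq_zero_iff_mem
  have key : ∀ x y t : R, ((C.map (Ideal.Quotient.mk I)).toAffine.Equation
      (Ideal.Quotient.mk I x) (Ideal.Quotient.mk I y) ∧
      ¬ (C.map (Ideal.Quotient.mk I)).toAffine.Nonsingular (Ideal.Quotient.mk I x)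
        (Ideal.Quotient.mk I y) ∧
      (Ideal.Quotient.mk I t) ^ 2 + (C.map (Ideal.Quotient.mk I)).a₁ * Ideal.Quotient.mk I t =
        (C.map (Ideal.Quotient.mk I)).a₂ + 3 * Ideal.Quotient.mk I x ∧
      2 * Ideal.Quotient.mk I t + (C.map (Ideal.Quotient.mk I)).a₁ ≠ 0) ↔ IsNode C I x y t := by
    intro x y t
    rw [WeierstrassCurve.Affine.nonsingular_iff]
    have e1 : (C.map (Ideal.Quotient.mk I)).toAffine.Equation
        (Ideal.Quotient.mk I x) (Ideal.Quotient.mk I y) ↔
        y ^ 2 + C.a₁ * x * y + C.a₃ * y - (x ^ 3 + C.a₂ * x ^ 2 + C.a₄ * x + C.a₆) ∈ I := by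
      rw [WeierstrassCurve.Affine.equation_iff, ← hz, ← sub_eq_zero]
      simp only [map_sub, map_add, map_mul, map_pow, WeierstrassCurve.map_a₁,
        WeierstrassCurve.map_a₂, WeierstrassCurve.map_a₃, WeierstrassCurve.map_a₄,
        WeierstrassCurve.map_a₆, WeierstrassCurve.toAffine]
    have e2 : (C.map (Ideal.Quotient.mk I)).toAffine.a₁ * Ideal.Quotient.mk I y =
        3 * (Ideal.Quotient.mk I x) ^ 2 + 2 * (C.map (Ideal.Quotient.mk I)).toAffine.a₂ *
          Ideal.Quotient.mk I x + (C.map (Ideal.Quotient.mk I)).toAffine.a₄ ↔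
        C.a₁ * y - (3 * x ^ 2 + 2 * C.a₂ * x + C.a₄) ∈ I := by
      rw [← hz, ← sub_eq_zero]
      simp only [map_sub, map_add, map_mul, map_pow, map_ofNat, WeierstrassCurve.map_a₁,
        WeierstrassCurve.map_a₂, WeierstrassCurve.map_a₄, WeierstrassCurve.toAffine]
    have e3 : Ideal.Quotient.mk I y = -Ideal.Quotient.mk I y -
        (C.map (Ideal.Quotient.mk I)).toAffine.a₁ * Ideal.Quotient.mk I x -
        (C.map (Ideal.Quotient.mk I)).toAffine.a₃ ↔ 2 * y + C.a₁ * x + C.a₃ ∈ I := by
      rw [← hz, ← sub_eq_zero]
      simp only [map_add, map_mul, map_ofNat, WeierstrassCurve.map_a₁, WeierstrassCurve.map_a₃,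
        WeierstrassCurve.toAffine]
      ring_nf
    have e4 : (Ideal.Quotient.mk I t) ^ 2 + (C.map (Ideal.Quotient.mk I)).a₁ *
        Ideal.Quotient.mk I t = (C.map (Ideal.Quotient.mk I)).a₂ + 3 * Ideal.Quotient.mk I x ↔
        t ^ 2 + C.a₁ * t - (C.a₂ + 3 * x) ∈ I := by
      rw [← hz, ← sub_eq_zero]
      simp only [map_sub, map_add, map_mul, map_pow, map_ofNat, WeierstrassCurve.map_a₁,
        WeierstrassCurve.map_a₂]
    have e5 : 2 * Ideal.Quotient.mk I t + (C.map (Ideal.Quotient.mk I)).a₁ = 0 ↔
        2 * t + C.a₁ ∈ I := by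
      rw [← hz]
      simp only [map_add, map_mul, map_ofNat, WeierstrassCurve.map_a₁]
    rw [e1, ne_eq, ne_eq, ne_eq, e2, e3, e4, e5]
    constructor
    · rintro ⟨h1, h2, h3, h4⟩
      have h5 : C.a₁ * y - (3 * x ^ 2 + 2 * C.a₂ * x + C.a₄) ∈ I := by
        by_contra h
        exact h2 ⟨h1, Or.inl h⟩
      have h6 : 2 * y + C.a₁ * x + C.a₃ ∈ I := by
        by_contra h
        exact h2 ⟨h1, Or.inr h⟩
      exact ⟨h1, h5, h6, h3, h4⟩
    · rintro ⟨h1, h2, h3, h4, h5⟩
      refine ⟨h1, ?_, h4, h5⟩
      rintro ⟨-, h6 | h6⟩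
      · exact h6 h2
      · exact h6 h3
  constructor
  · rintro ⟨x, y, t, h⟩
    obtain ⟨x, rfl⟩ := Ideal.Quotient.mk_surjective x
    obtain ⟨y, rfl⟩ := Ideal.Quotient.mk_surjective y
    obtain ⟨t, rfl⟩ := Ideal.Quotient.mk_surjective t
    exact ⟨t, x, y, (key x y t).1 h⟩
  · rintro ⟨t, x, y, h⟩
    exact ⟨_, _, _, (key x y t).2 h⟩

theorem splitAt_iff {K : Type} [Field K] [NumberField K]
    (W : HeightOneSpectrum (𝓞 K) → WeierstrassCurve (𝓞 K)) {F : Type} [Field F] [Algebra K F]
    (w : HeightOneSpectrum (𝓞 F)) : SplitAt W w ↔ ∃ t, Tan W F w.asIdeal t := by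
  constructor
  · rintro ⟨v, hv, h⟩
    obtain ⟨t, x, y, h⟩ := (splitNode_iff _ _).1 h
    exact ⟨t, v, hv, x, y, h⟩
  · rintro ⟨t, v, hv, x, y, h⟩
    exact ⟨v, hv, (splitNode_iff _ _).2 ⟨t, x, y, h⟩⟩

theorem split_card {K : Type} [Field K] [NumberField K]
    (W : HeightOneSpectrum (𝓞 K) → WeierstrassCurve (𝓞 K)) (F : Type) [Field F] [Algebra K F] :
    Nat.card {w : HeightOneSpectrum (𝓞 F) // SplitAt W w} = (SP W F).ncard := by
  rw [← Nat.card_coe_set_eq]
  refine Nat.card_congr ⟨fun w => ⟨w.1.asIdeal, w.1.isPrime, w.1.ne_bot, (splitAt_iff W w.1).1 w.2⟩,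
    fun Q => ⟨⟨Q.1, Q.2.1, Q.2.2.1⟩, (splitAt_iff W _).2 Q.2.2.2⟩, fun _ => rfl, fun _ => rfl⟩

theorem pow_iff (r k : ℕ) : ((-1 : ℤ) ^ r = (-1) ^ k) ↔ Even (r + k) := by
  rw [Nat.even_add]
  rcases Nat.even_or_odd r with h | h <;> rcases Nat.even_or_odd k with h' | h'
  · simp [h, h'.neg_one_pow, h.neg_one_pow, h']
  · simp [h, h'.neg_one_pow, h.neg_one_pow, h']
  · simp [h, h'.neg_one_pow, h.neg_one_pow, h']
  · have h1 : ¬ Even r := Nat.not_even_iff_odd.2 h
    have h2 : ¬ Even k := Nat.not_even_iff_odd.2 h'
    simp [h'.neg_one_pow, h.neg_one_pow, h1, h2]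

theorem parity_iff {K : Type} [Field K] [NumberField K] (E : WeierstrassCurve K)
    (W : HeightOneSpectrum (𝓞 K) → WeierstrassCurve (𝓞 K)) (p : ℕ) [Fact p.Prime]
    (F : IntermediateField K (AlgebraicClosure K)) : PParity E W p F ↔ Par E p W F := by
  unfold PParity Par rootNumber
  refine exists_congr fun r => ?_
  rw [selmerRank_iff, pow_iff, split_card, ← add_assoc]

end bridge

section between
variable {K Ω : Type} [Field K] [Field Ω] [Algebra K Ω]

/-- A field `X` between `F` and the extension `L` of `F`, as an extension of `K`. -/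
noncomputable def between {F : IntermediateField K Ω} {L : IntermediateField F Ω}
    (X : IntermediateField F L) : IntermediateField K Ω :=
  (IntermediateField.lift X).restrictScalars K

end between

open Pool.Agent.V5helper60.HW Pool.Agent.V5helper60.PP Pool.Agent.V5helper60.AF in
/-- the finite form -/
theorem finite_form {K : Type} [Field K] [NumberField K]
    {Q : IntermediateField K (AlgebraicClosure K) → Prop}
    (hQ : ∀ m : ℕ, ¬ 2 ∣ m → Inh Q Q m)
    (F : IntermediateField K (AlgebraicClosure K)) [FiniteDimensional K F]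
    (L : IntermediateField F (AlgebraicClosure K)) [FiniteDimensional F L] [IsGalois F L]
    (h : ∀ X : IntermediateField F L, Hyperelementary 2 X.fixingSubgroup → Q (between X)) : Q F := by
  obtain ⟨L', rfl⟩ : ∃ L' : IntermediateField K (AlgebraicClosure K), L = EL F L' := by
    refine ⟨L.restrictScalars K, ?_⟩
    have hle : F ≤ L.restrictScalars K := fun x hx => L.algebraMap_mem ⟨x, hx⟩
    ext x
    rw [mem_EL, sup_eq_right.2 hle]
    rfl
  have hNF : NumberField F := NumberField.of_module_finite K F
  have hNE : NumberField (EL F L') := NumberField.of_module_finite F (EL F L')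
  obtain ⟨m, S, n, hm0, hmP, hS, hsum⟩ := hyp_rel F (EL F L') {2}
  have hm2 : ¬ 2 ∣ m := hmP 2 rfl Nat.prime_two
  refine hQ m hm2 F L' hNF hNE inferInstance S n hsum fun X hX => h X ?_
  rcases hS X hX with h | ⟨p, hp, hpp, h⟩
  · exact Hyp.of_cyclic Nat.prime_two h
  · have h9 : p = 2 := hp
    subst h9
    exact hyp_of_isHyper h

open Pool.Agent.V5helper60.HW Pool.Agent.V5helper60.PP Pool.Agent.V5helper60.AF in
/-- Let `E` be a semistable elliptic curve over the number field `K`, and let `p` be a prime number.

(1) Let `F` be a finite extension of `K` and `L` a finite Galois extension of `F`. If the `p`-parity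
conjecture holds for `E` over all fields `X` between `F` and `L` such that `Gal(L/X)` is
`2`-hyperelementary, then it holds for `E` over `F`.

(2) If the `p`-parity conjecture fails for `E` over the finite extension `F₀` of `K` then there is an
extension `M` of `F₀` in the algebraic closure, critical for the `p`-parity conjecture, such that

* all finite Galois extensions of `M` have `2`-hyperelementary groups;
* for every `n ≥ 1` and all large finite extensions `F` inside `M` the automorphisms over `F` induce a
  `2`-hyperelementary group on `E[n]`;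
* for all odd `n`, all `j` and all large `F` inside `M` the automorphisms over `F` which are trivial on
  `E[n]` induce a cyclic group on `E[n ^ j]`;
* for all prime numbers `q` and all large `F` inside `M`, `E` has a subgroup of order `q` defined over
  `F`, or the automorphisms over an extension of `F` of degree at most two act on `E[q]` through a
  commutative group. -/
theorem result (K : Type) [Field K] [NumberField K] (E : WeierstrassCurve K) [E.IsElliptic]
    (W : HeightOneSpectrum (𝓞 K) → WeierstrassCurve (𝓞 K)) (hW : SemistableModels E W)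
    (p : ℕ) [Fact p.Prime] :
    (∀ (F : IntermediateField K (AlgebraicClosure K)) [FiniteDimensional K F]
      (L : IntermediateField F (AlgebraicClosure K)) [FiniteDimensional F L] [IsGalois F L],
      (∀ X : IntermediateField F L, Hyperelementary 2 X.fixingSubgroup →
        PParity E W p (between X)) → PParity E W p F) ∧
    ∀ F₀ : IntermediateField K (AlgebraicClosure K), FiniteDimensional K F₀ → ¬ PParity E W p F₀ →
      ∃ M : IntermediateField K (AlgebraicClosure K), F₀ ≤ M ∧ Critical (PParity E W p) M ∧
        HyperelementaryExtensions 2 M ∧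
        (∀ n : ℕ, 1 ≤ n → ForLarge M (HyperelementaryOn E 2 n)) ∧
        (∀ n j : ℕ, Odd n → ForLarge M (CyclicOn E n j)) ∧
        ∀ q : ℕ, q.Prime → ForLarge M (ReducibleOrDihedral E q) := by
  have hΔ : E.Δ ≠ 0 := E.isUnit_Δ.ne_zero
  have hpar : PParity E W p = Par E p W := funext fun F => propext (parity_iff E W p F)
  have hinh : ∀ m : ℕ, ¬ 2 ∣ m → Inh (PParity E W p) (PParity E W p) m := by
    rw [hpar]
    exact inh_par E p W hΔ fun v => (hW v).1
  refine ⟨fun F _ L _ _ h => finite_form hinh F L h, fun F₀ hF₀ h => ?_⟩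
  obtain ⟨M, hle, hcrt, h3, h5, h6, h7⟩ := crit_odd hinh E inferInstance hF₀ h
  have hmono : ∀ {M : IntermediateField K (AlgebraicClosure K)}
      {P P' : IntermediateField K (AlgebraicClosure K) → Prop}, ForLarge M P →
      (∀ F : IntermediateField K (AlgebraicClosure K), FiniteDimensional K F → P F → P' F) →
      ForLarge M P' := fun hP hPP => Lrg.mono hP hPP
  refine ⟨M, hle, hcrt, ?_, ?_, ?_, ?_⟩
  · intro N _ _
    exact h3 N
  · intro n hn
    refine hmono (h5 n hn) fun F _ hF => ?_
    obtain ⟨hfin, -⟩ := tor_finite (Ω := AlgebraicClosure K) E hΔ hn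
    obtain ⟨c, hc, ⟨t, ht, ht'⟩, h8, h9⟩ := hyp_lift _ _ hF
    refine ⟨c, hc, ⟨t, ht, (rep_eq_iff E n _ _).1 ht'⟩, fun g hg => ?_, fun g hg => ?_⟩
    · obtain ⟨i, hi⟩ := h8 g hg
      exact ⟨i, (rep_eq_iff E n _ _).1 hi⟩
    · obtain ⟨k, i, hi⟩ := h9 g hg
      exact ⟨k, i, (rep_eq_iff E n _ _).1 hi⟩
  · intro n j hn
    refine hmono (h6 n j hn.pos hn.coprime_two_right) fun F _ hF => ?_
    obtain ⟨c, hc, h8⟩ := cyclic_lift _ _ hF
    refine ⟨c, hc.1, ?_, fun g hg hg' => ?_⟩
    · have h9 : rep E (Ω := AlgebraicClosure K) n c = rep E n 1 := by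
        rw [map_one]
        exact hc.2
      exact (rep_eq_iff E n _ _).1 h9
    · have h9 : rep E (Ω := AlgebraicClosure K) n g = rep E n 1 := (rep_eq_iff E n _ _).2 hg'
      rw [map_one] at h9
      obtain ⟨i, hi⟩ := h8 g ⟨hg, h9⟩
      exact ⟨i, (rep_eq_iff E (n ^ j) _ _).1 hi⟩
  · intro q hq
    refine hmono (h7 q hq) fun F _ hF => ?_
    rcases hF with hF | ⟨F', h8, hfin, h9, h10⟩
    · exact Or.inl hF
    · refine Or.inr ⟨F', h8, hfin, h9, fun σ hσ τ hτ P hP => ?_⟩
      have h11 := h10 σ hσ τ hτ P hP
      exact (Pool.Agent.V5helper60.HW.act_mul E σ τ _).trans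
        (h11.trans (Pool.Agent.V5helper60.HW.act_mul E τ σ _).symm)


end Pool.Agent.Results.MP_ddf76b_nt.CriticalFields
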