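import Pool.Agent.Results.MP_ddf76b_nt.CriticalFields

/-!
# Where the Selmer rank of an elliptic curve can depend on the prime number for the first time

Let `E` be any elliptic curve over a number field `K`. The `p`-parity conjecture for all `p` implies that
the parity of the `p^∞`-Selmer rank `rk_p(E/F)` does not depend on `p`, and the finiteness of the
Tate-Shafarevich group implies that `rk_p(E/F)` itself does not depend on `p`. Let `P` be a set of prime
numbers.

* Suppose that the ranks `rk_p(E/F₀)`, `p ∈ P`, are not all equal for some finite extension `F₀`. Then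
  there is an automorphism `σ` of the algebraic closure such that its fixed field `M` contains `F₀` and is
  critical: the ranks are not all equal over arbitrarily large finite extensions inside `M`, and for every
  field `N` larger than `M` they are all equal over all sufficiently large finite extensions inside
  `N`. For every `n` the automorphisms over the large finite extensions inside `M` act on `E[n]` as powers
  of `σ`.
* Suppose that the ranks `rk_p(E/F₀)`, `p ∈ P`, do not all have the same parity. Then there is a critical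
  extension `M` of `F₀` for this property; all finite Galois extensions of `M` have `2`-hyperelementary
  groups, and over the large finite extensions inside `M` the Galois action on the torsion points is as in
  `CriticalFields`.
* The finite forms: let `L/F` be finite and Galois. The ranks over `F` are equal (have the same parity) if
  this holds over all fields `X` between `F` and `L` over which `L` has a cyclic
  (`2`-hyperelementary) group.

There is no assumption on the reduction of `E`. The definitions are those of `CriticalFields`.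
-/

set_option autoImplicit false

namespace Pool.Agent.Results.MP_ddf76b_nt.IndependenceOfThePrime

open NumberField IsDedekindDomain Module
open Pool.Agent.Results.MP_ddf76b_nt.CriticalFields

open scoped Classical

section
variable {K : Type} [Field K] [NumberField K]

/-- The Selmer ranks `rk_p(E/F)` for the prime numbers `p` in `P` are finite and equal. -/
def EqualRanks (E : WeierstrassCurve K) (P : Set ℕ) (F : IntermediateField K (AlgebraicClosure K)) :
    Prop :=
  ∃ r : ℕ, ∀ (p : ℕ) [Fact p.Prime], p ∈ P → SelmerRank E p F r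

/-- The Selmer ranks `rk_p(E/F)` for the prime numbers `p` in `P` are finite and have the same
parity. -/
def SameParity (E : WeierstrassCurve K) (P : Set ℕ) (F : IntermediateField K (AlgebraicClosure K)) :
    Prop :=
  ∃ ε : ℤ, ∀ (p : ℕ) [Fact p.Prime], p ∈ P → ∃ r : ℕ, SelmerRank E p F r ∧ (-1) ^ r = ε

end

section
variable {K : Type} [Field K]

/-- The automorphisms over `F` act on `E[n]` as powers of `σ`. -/
def PowersOn (E : WeierstrassCurve K) (σ : AlgebraicClosure K ≃ₐ[K] AlgebraicClosure K) (n : ℕ)
    (F : IntermediateField K (AlgebraicClosure K)) : Prop :=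
  ∀ τ ∈ F.fixingSubgroup, ∃ i : ℤ, SameOn E n τ (σ ^ i)

/-- `M` is the field fixed by the automorphism `σ`, and for every `n` all automorphisms over a
sufficiently large finite extension of `K` inside `M` act on `E[n]` as powers of `σ`. -/
def Monogenic (E : WeierstrassCurve K) (σ : AlgebraicClosure K ≃ₐ[K] AlgebraicClosure K)
    (M : IntermediateField K (AlgebraicClosure K)) : Prop :=
  (∀ x, x ∈ M ↔ σ x = x) ∧ ∀ n : ℕ, 1 ≤ n → ForLarge M (PowersOn E σ n)

end

section proofs
variable {K : Type} [Field K] [NumberField K] (E : WeierstrassCurve K) (P : Set ℕ)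

open Pool.Agent.V5helper60.HW Pool.Agent.V5helper60.PP Pool.Agent.V5helper60.AF

/-- the relation -/
theorem rank_rel' {p : ℕ} [Fact p.Prime] {m : ℕ} (hm : m ≠ 0)
    {F L : IntermediateField K (AlgebraicClosure K)} [NumberField F] [NumberField (EL F L)]
    [IsGalois F (EL F L)] (S : Finset (IntermediateField F (EL F L)))
    (n : IntermediateField F (EL F L) → ℤ)
    (h : ∀ g : Gal(EL F L/F), ∑ X ∈ S, n X * Pool.Agent.R433.MD.fx X.fixingSubgroup g = m)
    (r : IntermediateField F (EL F L) → ℕ) (hr : ∀ X ∈ S, SelmerRank E p (down X) (r X)) :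
    ∃ r₀ : ℕ, SelmerRank E p F r₀ ∧ (m : ℤ) * r₀ = ∑ X ∈ S, n X * (r X : ℤ) := by
  have hr' : ∀ X ∈ S, RankIs E p (down X) (r X) := fun X hX => (selmerRank_iff E p _ _).1 (hr X hX)
  obtain ⟨h1, h2⟩ := vf_rel E p S n hm h fun X hX => (hr' X hX).fin.1
  refine ⟨_, (selmerRank_iff E p _ _).2 (RankIs.of_fin E p h1), ?_⟩
  rw [h2]
  exact Finset.sum_congr rfl fun X hX => by rw [(hr' X hX).fin.2]

theorem inh_equal (m : ℕ) (hm : m ≠ 0) : Inh (EqualRanks E P) (EqualRanks E P) m := by
  intro F L hNF hNE hgal S n hsum hS
  have hS' : ∀ X : IntermediateField F (EL F L), ∃ r : ℕ, X ∈ S →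
      ∀ (p : ℕ) [Fact p.Prime], p ∈ P → SelmerRank E p (down X) r := by
    intro X
    by_cases hX : X ∈ S
    · obtain ⟨r, hr⟩ := hS X hX
      exact ⟨r, fun _ => hr⟩
    · exact ⟨0, fun h => absurd h hX⟩
  choose r hr using hS'
  by_cases hP : ∃ p : ℕ, p.Prime ∧ p ∈ P
  · obtain ⟨p₀, hp₀, hpP₀⟩ := hP
    have hF₀ : Fact p₀.Prime := ⟨hp₀⟩
    obtain ⟨r₀, hr₀, he₀⟩ := rank_rel' E (p := p₀) hm S n hsum r fun X hX => hr X hX p₀ hpP₀
    refine ⟨r₀, fun p _ hp => ?_⟩
    obtain ⟨r₁, hr₁, he₁⟩ := rank_rel' E (p := p) hm S n hsum r fun X hX => hr X hX p hp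
    have h1 : (m : ℤ) * r₁ = m * r₀ := he₁.trans he₀.symm
    have h2 : (r₁ : ℤ) = r₀ := mul_left_cancel₀ (by exact_mod_cast hm) h1
    have h3 : r₁ = r₀ := by exact_mod_cast h2
    rwa [← h3]
  · exact ⟨0, fun p hp hpP => absurd ⟨p, hp.out, hpP⟩ hP⟩

theorem inh_parity (m : ℕ) (hm : ¬ 2 ∣ m) : Inh (SameParity E P) (SameParity E P) m := by
  intro F L hNF hNE hgal S n hsum hS
  have hm0 : m ≠ 0 := by
    rintro rfl
    exact hm (dvd_zero 2)
  have hS' : ∀ X : IntermediateField F (EL F L), ∃ ε : ℤ, X ∈ S →
      ∀ (p : ℕ) [Fact p.Prime], p ∈ P → ∃ r : ℕ, SelmerRank E p (down X) r ∧ (-1) ^ r = ε := by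
    intro X
    by_cases hX : X ∈ S
    · obtain ⟨ε, hε⟩ := hS X hX
      exact ⟨ε, fun _ => hε⟩
    · exact ⟨0, fun h => absurd h hX⟩
  choose ε hε using hS'
  have key : ∀ (p : ℕ) [Fact p.Prime], p ∈ P → ∃ (r₀ : ℕ) (r : IntermediateField F (EL F L) → ℕ),
      SelmerRank E p F r₀ ∧ (m : ℤ) * r₀ = ∑ X ∈ S, n X * (r X : ℤ) ∧
      ∀ X ∈ S, (-1 : ℤ) ^ r X = ε X := by
    intro p _ hp
    have h1 : ∀ X : IntermediateField F (EL F L), ∃ r : ℕ, X ∈ S →
        SelmerRank E p (down X) r ∧ (-1 : ℤ) ^ r = ε X := by
      intro X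
      by_cases hX : X ∈ S
      · obtain ⟨r, hr⟩ := hε X hX p hp
        exact ⟨r, fun _ => hr⟩
      · exact ⟨0, fun h => absurd h hX⟩
    choose r hr using h1
    obtain ⟨r₀, h2, h3⟩ := rank_rel' E (p := p) hm0 S n hsum r fun X hX => (hr X hX).1
    exact ⟨r₀, r, h2, h3, fun X hX => (hr X hX).2⟩
  by_cases hP : ∃ p : ℕ, p.Prime ∧ p ∈ P
  · obtain ⟨p₀, hp₀, hpP₀⟩ := hP
    have hF₀ : Fact p₀.Prime := ⟨hp₀⟩
    obtain ⟨s₀, s, hs₀, hs, hsε⟩ := key p₀ hpP₀
    refine ⟨(-1) ^ s₀, fun p _ hp => ?_⟩
    obtain ⟨r₀, r, hr₀, hr, hrε⟩ := key p hp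
    refine ⟨r₀, hr₀, ?_⟩
    rw [pow_iff]
    have h1 : Even ((m : ℤ) * ((r₀ : ℤ) + s₀)) := by
      rw [mul_add, hr, hs, ← Finset.sum_add_distrib]
      refine Finset.even_sum _ fun X hX => ?_
      rw [← mul_add]
      refine Even.mul_left ?_ _
      have h2 : Even (r X + s X) := (pow_iff _ _).1 ((hrε X hX).trans (hsε X hX).symm)
      exact_mod_cast h2
    rw [Int.even_mul] at h1
    rcases h1 with h1 | h1
    · exfalso
      apply hm
      exact_mod_cast even_iff_two_dvd.1 h1
    · exact_mod_cast h1
  · exact ⟨0, fun p hp hpP => absurd ⟨p, hp.out, hpP⟩ hP⟩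

omit [NumberField K] in
/-- the finite form for cyclic groups -/
theorem finite_cyclic [NumberField K] {Q : IntermediateField K (AlgebraicClosure K) → Prop}
    (hQ : ∀ m : ℕ, m ≠ 0 → Inh Q Q m)
    (F : IntermediateField K (AlgebraicClosure K)) [FiniteDimensional K F]
    (L : IntermediateField F (AlgebraicClosure K)) [FiniteDimensional F L] [IsGalois F L]
    (h : ∀ X : IntermediateField F L, IsCyclic X.fixingSubgroup → Q (between X)) : Q F := by
  obtain ⟨L', rfl⟩ : ∃ L' : IntermediateField K (AlgebraicClosure K), L = EL F L' := by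
    refine ⟨L.restrictScalars K, ?_⟩
    have hle : F ≤ L.restrictScalars K := fun x hx => L.algebraMap_mem ⟨x, hx⟩
    ext x
    rw [mem_EL, sup_eq_right.2 hle]
    rfl
  have hNF : NumberField F := NumberField.of_module_finite K F
  have hNE : NumberField (EL F L') := NumberField.of_module_finite F (EL F L')
  obtain ⟨m, S, n, hm0, -, hS, hsum⟩ := hyp_rel F (EL F L') ∅
  refine hQ m hm0 F L' hNF hNE inferInstance S n hsum fun X hX => h X ?_
  rcases hS X hX with h | ⟨p, hp, -⟩
  · exact h
  · exact absurd hp (Set.notMem_empty p)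

end proofs

open Pool.Agent.V5helper60.HW Pool.Agent.V5helper60.PP Pool.Agent.V5helper60.AF in
/-- Let `E` be an elliptic curve over the number field `K`, and `P` a set of natural numbers (we look at
the prime numbers in `P`).

(1) Let `F` be a finite extension of `K` and `L` a finite Galois extension of `F`. If the Selmer ranks for
the `p ∈ P` are equal over all fields `X` between `F` and `L` with cyclic `Gal(L/X)`, then they are equal
over `F`. If they have the same parity over all `X` with `2`-hyperelementary `Gal(L/X)`, then they have the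
same parity over `F`.

(2) If the Selmer ranks for the `p ∈ P` are not all equal over the finite extension `F₀` of `K` then there
is an extension `M` of `F₀`, critical for the equality of the ranks, and an automorphism `σ` such that `M`
is the field fixed by `σ`, and the automorphisms over large finite extensions inside `M` act on `E[n]` as
powers of `σ`.

(3) If the Selmer ranks for the `p ∈ P` do not all have the same parity over `F₀` then there is an
extension `M` of `F₀`, critical for the equality of the parities, all of whose finite Galois extensions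
have `2`-hyperelementary groups; and for all large finite extensions `F` inside `M` the group of `F` on
`E[n]` is `2`-hyperelementary, the automorphisms over `F` which are trivial on `E[n]`, `n` odd, induce a
cyclic group on `E[n ^ j]`, and, for every prime number `q`, `E` has a subgroup of order `q` defined over
`F` or the automorphisms over an extension of `F` of degree at most two act on `E[q]` through a commutative
group. -/
theorem result (K : Type) [Field K] [NumberField K] (E : WeierstrassCurve K) [E.IsElliptic]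
    (P : Set ℕ) :
    (∀ (F : IntermediateField K (AlgebraicClosure K)) [FiniteDimensional K F]
      (L : IntermediateField F (AlgebraicClosure K)) [FiniteDimensional F L] [IsGalois F L],
      ((∀ X : IntermediateField F L, IsCyclic X.fixingSubgroup → EqualRanks E P (between X)) →
        EqualRanks E P F) ∧
      ((∀ X : IntermediateField F L, Hyperelementary 2 X.fixingSubgroup →
        SameParity E P (between X)) → SameParity E P F)) ∧
    (∀ F₀ : IntermediateField K (AlgebraicClosure K), FiniteDimensional K F₀ →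
      ¬ EqualRanks E P F₀ → ∃ M : IntermediateField K (AlgebraicClosure K), F₀ ≤ M ∧
        Critical (EqualRanks E P) M ∧ ∃ σ, Monogenic E σ M) ∧
    ∀ F₀ : IntermediateField K (AlgebraicClosure K), FiniteDimensional K F₀ →
      ¬ SameParity E P F₀ → ∃ M : IntermediateField K (AlgebraicClosure K), F₀ ≤ M ∧
        Critical (SameParity E P) M ∧ HyperelementaryExtensions 2 M ∧
        (∀ n : ℕ, 1 ≤ n → ForLarge M (HyperelementaryOn E 2 n)) ∧
        (∀ n j : ℕ, Odd n → ForLarge M (CyclicOn E n j)) ∧
        ∀ q : ℕ, q.Prime → ForLarge M (ReducibleOrDihedral E q) := by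
  have hΔ : E.Δ ≠ 0 := E.isUnit_Δ.ne_zero
  have hE : E.IsElliptic := inferInstance
  have hmono : ∀ {M : IntermediateField K (AlgebraicClosure K)}
      {P P' : IntermediateField K (AlgebraicClosure K) → Prop}, ForLarge M P →
      (∀ F : IntermediateField K (AlgebraicClosure K), FiniteDimensional K F → P F → P' F) →
      ForLarge M P' := fun hP hPP => Lrg.mono hP hPP
  refine ⟨fun F _ L _ _ => ⟨fun h => finite_cyclic (inh_equal E P) F L h,
    fun h => finite_form (inh_parity E P) F L h⟩, fun F₀ hF₀ h => ?_, fun F₀ hF₀ h => ?_⟩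
  · obtain ⟨M, hle, hM1, hM2⟩ := crit_above (EqualRanks E P) hF₀ h
    have hcyc : ∀ (L : IntermediateField K (AlgebraicClosure K)) [Normal K L]
        [FiniteDimensional K L], IsCyclic (img M L) := by
      intro L _ _
      exact critR_cyclic (inh_equal E P) hM1 hM2 L
    obtain ⟨σ, h1, h2⟩ := mono_of_cyclic hE hcyc
    exact ⟨M, hle, ⟨(lrg_iff _ _).2 hM1, fun N hN => (lrg_iff' _ _).2 (hM2 N hN)⟩, σ, h1, h2⟩
  · obtain ⟨M, hle, hcrt, h3, h5, h6, h7⟩ := crit_odd (inh_parity E P) E hE hF₀ h
    refine ⟨M, hle, hcrt, ?_, ?_, ?_, ?_⟩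
    · intro N _ _
      exact h3 N
    · intro n hn
      refine hmono (h5 n hn) fun F _ hF => ?_
      obtain ⟨hfin, -⟩ := tor_finite (Ω := AlgebraicClosure K) E hΔ hn
      obtain ⟨c, hc, ⟨t, ht, ht'⟩, h8, h9⟩ := hyp_lift _ _ hF
      refine ⟨c, hc, ⟨t, ht, (rep_eq_iff E n _ _).1 ht'⟩, fun g hg => ?_, fun g hg => ?_⟩
      · obtain ⟨i, hi⟩ := h8 g hg
        exact ⟨i, (rep_eq_iff E n _ _).1 hi⟩
      · obtain ⟨k, i, hi⟩ := h9 g hg
        exact ⟨k, i, (rep_eq_iff E n _ _).1 hi⟩
    · intro n j hn
      refine hmono (h6 n j hn.pos hn.coprime_two_right) fun F _ hF => ?_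
      obtain ⟨c, hc, h8⟩ := cyclic_lift _ _ hF
      refine ⟨c, hc.1, ?_, fun g hg hg' => ?_⟩
      · have h9 : rep E (Ω := AlgebraicClosure K) n c = rep E n 1 := by
          rw [map_one]
          exact hc.2
        exact (rep_eq_iff E n _ _).1 h9
      · have h9 : rep E (Ω := AlgebraicClosure K) n g = rep E n 1 := (rep_eq_iff E n _ _).2 hg'
        rw [map_one] at h9
        obtain ⟨i, hi⟩ := h8 g ⟨hg, h9⟩
        exact ⟨i, (rep_eq_iff E (n ^ j) _ _).1 hi⟩
    · intro q hq
      refine hmono (h7 q hq) fun F _ hF => ?_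
      rcases hF with hF | ⟨F', h8, hfin, h9, h10⟩
      · exact Or.inl hF
      · refine Or.inr ⟨F', h8, hfin, h9, fun σ hσ τ hτ P hP => ?_⟩
        have h11 := h10 σ hσ τ hτ P hP
        exact (Pool.Agent.V5helper60.HW.act_mul E σ τ _).trans
          (h11.trans (Pool.Agent.V5helper60.HW.act_mul E τ σ _).symm)

end Pool.Agent.Results.MP_ddf76b_nt.IndependenceOfThePrime
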